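import Pool.Agent.MP_ee8c61_ag.N3I44.Kit

/-!
Contracted curves, bigness inside a chamber and smallness on a wall.
-/

namespace Pool.Agent.MP_ee8c61_ag.N3.M3I44

open Pool.Agent.MP_ee8c61_ag.M3

set_option linter.unusedSectionVars false

variable [Base]

open M3 M3E M3K M3RESID Finset

noncomputable section

variable {f : Po 3} {M : Mod 3} {C : Ch f M} {o : M.J} {la : ℚ}

theorem pt_eq (t : ℚ) :
    C.pt la o t = M.nu + t • C.h - (la + t * (C.h o / M.a o)) • M.q M.aa := by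
  funext j
  simp [Ch.pt, Ch.hp, Mod.ex, Mod.nu, Mod.aa]
  ring

theorem pt_o (hM : M.OK f) (h0 : M.ex la o = 0) (t : ℚ) : C.pt la o t o = 0 := by
  have : (M.a o : ℚ) ≠ 0 := Nat.cast_ne_zero.2 (hM.pos o).ne'
  simp [Ch.pt, Ch.hp, h0, Mod.aa, this]

theorem co_zero (hA : C.Alive o) {c : C.W.J → ℤ} {m : ℕ} {d : M.J → ℚ}
    (h : C.W.q c = m • C.P d) (hd : d o = 0) : c (C.D.e o) = 0 := by
  have := congrFun h (C.D.e o)
  rw [Pi.smul_apply, hA, hd, smul_zero, Mod.q_apply] at this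
  exact_mod_cast this

theorem inn_mem {d : M.J → ℚ} (h : Inn C.U d) : d ∈ C.U := by
  obtain ⟨δ, -, h⟩ := h 0
  simpa using h

theorem inn_smul {d : M.J → ℚ} (h : Inn C.U d) {r : ℚ} (hr : 0 < r) : Inn C.U (r • d) := fun u => by
  obtain ⟨δ, h1, h2⟩ := h u
  refine ⟨r * δ, mul_pos hr h1, ?_⟩
  rw [mul_smul, ← smul_add]
  exact C.smul _ h2 r hr

/-- A multiple of the normalised mobile part is a mobile part up to the principal divisor. -/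
theorem rel (K : Ka C) {t : ℚ} (ht : M.nu + t • C.h ∈ C.U) {m : ℕ} (hm : 0 < m)
    {c : C.W.J → ℤ} (hc : C.W.q c = m • C.P (C.pt la o t)) :
    ∃ (n r : ℕ) (x : M.J → ℤ) (L : C.W.J → ℤ) (ρ : ℤ), 0 < n ∧ 0 < r ∧
      M.q x = r • (M.nu + t • C.h) ∧ Mob C x L ∧ n • c = L + ρ • C.W.aa := by
  obtain ⟨μ, x, L, h1, h2, h3⟩ := K.mob _ ht
  set s : ℚ := -((μ * m : ℕ) * (la + t * (C.h o / M.a o))) with hs
  refine ⟨μ * s.den, m * s.den * μ, (m * s.den) • x, (m * s.den) • L, s.num,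
    Nat.mul_pos h1 s.den_pos, Nat.mul_pos (Nat.mul_pos hm s.den_pos) h1,
    by rw [M.q_nsmul, h2, smul_smul], K.mob_nsmul _ _ _ h3, C.W.q_inj ?_⟩
  rw [C.W.q_nsmul, C.W.q_add, C.W.q_nsmul, C.W.q_zsmul, hc, h3.eq, h2, pt_eq, map_sub, map_smul,
    K.aa, map_nsmul, ← Rat.mul_den_eq_num s]
  funext i
  simp only [Pi.smul_apply, Pi.add_apply, Pi.sub_apply]
  simp only [nsmul_eq_mul, smul_eq_mul]
  generalize s.den = D
  rw [hs]
  push_cast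
  ring

theorem gen_fz {W : Mod 3} (B : Bas f W) (V : Vl 3) (hV : Ov V) (hW : W.OK f) (ρ : ℤ) :
    W.Gen V (ρ • W.aa) (ip 3 f ^ (-ρ)) := by
  obtain ⟨b, hb⟩ := hW.cov V hV
  have h1 := (B.gen_f V b hb).zpow (-ρ)
  refine (B.gen_iff b V _ _ hb).2 ?_
  have e : W.mon b (ρ • W.aa) = W.mon b (-W.aa) ^ (-ρ) := by
    simp only [Mod.mon_eq, ← Finset.prod_zpow, ← zpow_mul, Pi.smul_apply, Pi.neg_apply, smul_eq_mul]
    exact prod_congr rfl fun j _ => by congr 1; ring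
  rwa [e, ← mul_zpow]

variable {b : Polynomial ℂ} {X : Ch.AV (M := M) o} {Y : C.AS o}

theorem po (C : Ch f M) (o : M.J) : (M.v o).pl.o = C.W.v (C.D.e o) := (C.D.v o).symm

theorem sub_RF {T : Finset (KK 3)} {s : KK 3} (hs : s ∈ T) :
    Set.range (fun l => (M.v o).pl.π (xx 3 l)) ∪
      (fun s' => (M.v o).pl.π s' / (M.v o).pl.π s) '' T ⊆
      RF (fun l => (M.v o).pl.π (xx 3 l)) (by classical exact T.image (M.v o).pl.π) := by
  classical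
  refine Set.Subset.trans ?_ (IntermediateField.subset_adjoin _ _)
  refine Set.union_subset_union_right _ ?_
  rintro _ ⟨s', hs', rfl⟩
  exact ⟨_, mem_image_of_mem _ hs, _, mem_image_of_mem _ hs', rfl⟩

theorem ibig_of (hE : EOut) (hK : SKa) (hB : SBir) : IBig := by
  intro f la b β Q M C o X Y h _ hY Z hZ
  have K := hK 3 f M C h.ok
  have B := hE.bas 3 f C.W C.ok
  have hc := co_zero h.alive hY.c1 (pt_o h.ok h.zero _)
  obtain ⟨n, r, x, L, ρ, -, r0, e1, e2, e3⟩ := rel K (inn_mem hY.inn) hY.m hY.c1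
  have hP : Pz C x L := ⟨e2, by
    rw [e1, ← Nat.cast_smul_eq_nsmul ℚ]
    exact inn_smul hY.inn (Nat.cast_pos.2 r0)⟩
  obtain ⟨μ, F, w, Ξ, b1, b2, b3, b4, b5⟩ := K.big x L o hP h.alive
  have hb : Big C.W (C.D.e o) Y.c1 := ⟨μ * n, F + (μ * ρ) • C.W.aa, w, Ξ,
    B.free_add _ _ b1 (B.free_aa _), b2, b3, b4, by
      rw [mul_smul, e3, smul_add, b5, mul_smul, natCast_zsmul]
      abel⟩
  obtain ⟨s, s1, s2⟩ := hY.T1.2 _ (B.ov_v (C.D.e o))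
  have s0 := gen_ne C.ok B (po C o) hc (B.ov_v _) (po C o ▸ le_rfl) s2
  have kill : ∀ u, Bs C.W ⊤ Y.c1 s u → Z ((M.v o).pl.π u) = 0 := fun u hu =>
    (cl_of C.ok B (po C o) hc hY.T1 s1 s0 fun V h1 h2 => hu V h1 le_top h2).kill _ (sub_RF s1) hZ
  ext y
  obtain ⟨g, g1, rfl⟩ := (M.v o).pl.surj y
  obtain ⟨u, u1, u2, u3⟩ := hB 3 f C.W C.ok _ _ s hb (hY.T1.1 s s1) s2 g (po C o ▸ g1)
  rw [← po C o] at u2
  have u4 := (DV.un_O _).1 u2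
  have k1 := kill _ u3
  rw [(M.v o).pl.mul u u2.2.1 g g1, Derivation.leibniz, kill _ u1, smul_zero, add_zero,
    smul_eq_mul] at k1
  exact (mul_eq_zero.1 k1).resolve_left (ne_of_un u4.1 u4.2)

theorem ismall_of (hE : EOut) (hK : SKa) (hW : SWall) : ISmall := by
  intro f la b β Q M C o X Y h _ hY hD
  have K := hK 3 f M C h.ok
  have B := hE.bas 3 f C.W C.ok
  have B' := hE.bas 3 f M h.ok
  have hc := co_zero h.alive hY.c0 (pt_o h.ok h.zero _)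
  obtain ⟨n, r, x, L, ρ, n0, r0, e1, e2, e3⟩ := rel K C.mem hY.m hY.c0
  obtain ⟨s, s1, s2⟩ := hY.T0.2 _ (B.ov_v (C.D.e o))
  have s0 := gen_ne C.ok B (po C o) hc (B.ov_v _) (po C o ▸ le_rfl) s2
  have eL : n • Y.c0 + (-ρ) • C.W.aa = L := by rw [e3, neg_smul, add_neg_cancel_right]
  have σ1 : s ^ n * ip 3 f ^ (- -ρ) ∈ M.H x := by
    have := e2.H 1
    rw [one_smul, one_smul] at this
    rw [this, ← eL]
    exact fun V hV => B.oc_mul V _ _ _ _ (B.oc_pow V _ _ n (hY.T0.1 s s1 V hV))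
      (B.gen_oc V _ _ (gen_fz B V hV C.ok _))
  have σ2 : M.Gen (M.v o).O x (s ^ n * ip 3 f ^ (- -ρ)) := by
    have h1 := (B.gen_v _ _ _).1 (eL ▸ B.gen_mul _ _ _ _ _ (B.gen_pow _ _ _ n s2)
      (gen_fz B _ (B.ov_v _) C.ok (-ρ)))
    have h2 := congrFun e2.eq (C.D.e o)
    rw [h.alive, Mod.q_apply, Mod.q_apply, Int.cast_inj] at h2
    rw [C.D.v, h2] at h1
    exact (B'.gen_v _ _ _).2 h1
  have σ3 : ∀ V, Ov V → C.W.Gen V L (s ^ n * ip 3 f ^ (- -ρ)) → C.W.Gen V Y.c0 s :=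
    fun V hV hg => B.gen_root V _ _ n n0 (B.gen_of_mul V _ _ _ _
      (B.oc_pow V _ _ n (hY.T0.1 s s1 V hV)) (B.gen_oc V _ _ (gen_fz B V hV C.ok _)) (eL ▸ hg))
  let P := (M.v o).pl
  let S : Set (M.v o).kf := Set.range (fun l => P.π (xx 3 l)) ∪ (fun s' => P.π s' / P.π s) '' Y.T0
  have hS : ∀ y ∈ S, ∃ τ ∈ P.o.F 0, P.π τ = y ∧ Bs C.W ⊤ L (s ^ n * ip 3 f ^ (- -ρ)) τ := by
    rintro _ (⟨l, rfl⟩ | ⟨s', hs', rfl⟩)
    · exact ⟨xx 3 l, B'.ov_v o (xp 3 l), rfl, fun V hV _ _ => hV (xp 3 l)⟩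
    · obtain ⟨a1, a2⟩ := pl_div (sec_mem B (po C o) hc (hY.T0.1 s' hs'))
        (sec_mem B (po C o) hc (hY.T0.1 s s1)) s0
      exact ⟨s' / s, a1, a2, fun V hV _ hg =>
        (B.oc_div V _ s' s hV (σ3 V hV hg)).1 (hY.T0.1 s' hs' V hV)⟩
  have main : ∃ Z : VF (M.v o).kf, Z ≠ 0 ∧ ∀ y ∈ S, Z y = 0 := by
    by_cases h1 : ∃ a ∈ S, ∃ Z : VF (M.v o).kf, Z a ≠ 0
    · obtain ⟨a, ha, Z, hZ⟩ := h1
      refine ⟨M3F.fib X.Co a, fun e => ?_, fun y hy => ?_⟩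
      · obtain ⟨i, hi⟩ := M3F.fib_ne X.Co ⟨Z, hZ⟩
        exact hi (by rw [e]; rfl)
      obtain ⟨τ, τ1, rfl, τ2⟩ := hS a ha
      obtain ⟨τ', τ3, rfl, τ4⟩ := hS y hy
      obtain ⟨Φ, Φ0, Φ1⟩ := hW f M C h.ok o h.alive hD r x L e1 r0 e2 _ σ1 σ2 ![τ, τ'] τ2 τ4
      obtain ⟨k1, k2⟩ := pl_aeval (P := P) (τ := ![τ, τ'])
        (fun i => by fin_cases i; exacts [τ1, τ3]) Φ
      refine kill_dep hZ (M3F.fib_self X.Co) Φ0 ?_
      rw [← (P.ker _ k1).2 Φ1, k2]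
      congr 2
      funext i
      fin_cases i <;> rfl
    · push Not at h1
      refine ⟨X.Co.D 0, fun e => ?_, fun y hy => h1 y hy _⟩
      have := X.Co.dual 0 0
      rw [e] at this
      simp at this
  obtain ⟨Z, Z0, Z1⟩ := main
  refine ⟨Z, Z0, fun g hg => ?_⟩
  let F : IntermediateField ℂ (M.v o).kf :=
    { carrier := {g | Z g = 0}
      mul_mem' := fun {a b} ha hb => by
        show Z (a * b) = 0
        rw [Derivation.leibniz, show Z a = 0 from ha, show Z b = 0 from hb, smul_zero, smul_zero,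
          add_zero]
      add_mem' := fun {a b} ha hb => by
        show Z (a + b) = 0
        rw [map_add, show Z a = 0 from ha, show Z b = 0 from hb, add_zero]
      algebraMap_mem' := fun c => Z.map_algebraMap c
      inv_mem' := fun a ha => by
        show Z a⁻¹ = 0
        rw [Derivation.leibniz_inv, show Z a = 0 from ha, smul_zero] }
  refine (IntermediateField.adjoin_le_iff.2 ?_ : _ ≤ F) hg
  classical
  rintro _ (⟨l, rfl⟩ | ⟨_, h1, _, h2, rfl⟩)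
  · exact Z1 _ (Or.inl ⟨l, rfl⟩)
  · obtain ⟨u, hu, rfl⟩ := mem_image.1 h1
    obtain ⟨u', hu', rfl⟩ := mem_image.1 h2
    rw [← div_div_div_cancel_right₀ s0]
    exact F.div_mem (Z1 _ (Or.inr ⟨u', hu', rfl⟩)) (Z1 _ (Or.inr ⟨u, hu, rfl⟩))

/-- On a contracted curve the ratios of sections of all multiples are constant. -/
theorem cn_ratio {W : Mod 3} {i : W.J} {k : Type} [Field k] [Algebra ℂ k] {P : Pl (KK 3) k}
    {c : W.J → ℤ} {T : Finset (KK 3)} {S : Finset k} (hW : W.OK f) (B : Bas f W)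
    (hP : P.o = W.v i) (hc : c i = 0) (hT : W.Gens c T) (hS : ∀ y, y ∈ S ↔ ∃ s ∈ T, P.π s = y)
    {Γ : DV k} (h1 : ∀ l, P.π (xx 3 l) ∈ Γ.F 0) (hN : Null (fun l => P.π (xx 3 l)) S Γ) (n : ℕ)
    {g g' : KK 3} (hg : g ∈ W.H (n • c)) (hg' : g' ∈ W.H (n • c))
    (h0 : W.Gen (lift P Γ) (n • c) g) : Cn Γ (P.π (g' / g)) := by
  have hV : Ov (liftV P Γ.O) := ov_liftV (hP ▸ B.ov_v i) Γ.cst_mem h1
  obtain ⟨s, s1, s2⟩ := hT.2 _ hV
  have hr := fun s' hs' => ratio_mem hW B hP hc (hT.1 s s1) (hT.1 s' hs') hV s2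
  have s0 := (hr s s1).1
  have hG : GnS S Γ (P.π s) := ⟨(hS _).2 ⟨s, s1, rfl⟩, s0, fun y hy => by
    obtain ⟨s', hs', rfl⟩ := (hS y).1 hy
    exact (hr s' hs').2⟩
  have key : ∀ u ∈ W.H (n • c), Cn Γ (P.π (u / s ^ n)) := fun u hu => by
    refine (cl_of hW B hP hc hT s1 s0 fun V a1 a2 =>
      (B.oc_div V _ u _ a1 (B.gen_pow V _ _ n a2)).1 (hu V a1)).cn ?_
    rintro _ (⟨l, rfl⟩ | ⟨s', hs', rfl⟩)
    · exact cn_of (h1 l) (hN.1 l)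
    · exact cn_of (hr s' hs').2 (hN.2 _ hG _ ((hS _).2 ⟨s', hs', rfl⟩))
  have hn : (n • c) i = 0 := by simp [hc]
  have sn : s ^ n ∈ W.H (n • c) := fun V a => B.oc_pow V _ _ n (hT.1 s s1 V a)
  have s3 := B.gen_pow _ _ _ n s2
  obtain ⟨g0, a1⟩ := ratio_mem hW B hP hn hg sn hV h0
  obtain ⟨s4, a2⟩ := ratio_mem hW B hP hn sn hg hV s3
  have d := fun u hu => (pl_div (sec_mem B hP hn (g := u) hu) (sec_mem B hP hn sn) s4).2
  have a3 := (DV.un_O _).1 (show Un Γ.O (P.π g / P.π (s ^ n)) from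
    ⟨div_ne_zero g0 s4, a2, by rwa [inv_div]⟩)
  have := (key g' hg').div (key g hg) (d g hg ▸ a3.1) (d g hg ▸ a3.2)
  rwa [d g hg, d g' hg', div_div_div_cancel_right₀ s4,
    ← (pl_div (sec_mem B hP hn hg') (sec_mem B hP hn hg) g0).2] at this

theorem null_of (hE : EOut) (K : Ka C) {t : ℚ} (ht : Inn C.U (M.nu + t • C.h)) {m : ℕ}
    (hm : 0 < m) {c c' : C.W.J → ℤ} {d : M.J → ℚ} (e : C.W.q c = m • C.P (C.pt la o t))
    (e' : C.W.q c' = m • C.P d) (hc : c (C.D.e o) = 0) (hc' : c' (C.D.e o) = 0)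
    {T T' : Finset (KK 3)} (hT : C.W.Gens c T) (hT' : C.W.Gens c' T') {S S' : Finset (M.v o).kf}
    (hS : ∀ y, y ∈ S ↔ ∃ s ∈ T, (M.v o).pl.π s = y)
    (hS' : ∀ y, y ∈ S' ↔ ∃ s ∈ T', (M.v o).pl.π s = y) {Γ : DV (M.v o).kf}
    (h1 : ∀ l, (M.v o).pl.π (xx 3 l) ∈ Γ.F 0)
    (hN : Null (fun l => (M.v o).pl.π (xx 3 l)) S Γ) :
    Null (fun l => (M.v o).pl.π (xx 3 l)) S' Γ := by
  have B := hE.bas 3 f C.W C.ok
  have A := hE.aq 3 f C.W C.ok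
  have hP := po C o
  have hV : Ov (liftV (M.v o).pl Γ.O) := ov_liftV (hP ▸ B.ov_v _) Γ.cst_mem h1
  obtain ⟨r, hr⟩ := K.far _ ht (-(m • d))
  have a1 := K.semi _ (hr (r * m) (Nat.le_mul_of_pos_right r hm)).2
  have a2 : ∀ s : ℚ, C.W.SemiQ (s • C.W.q C.W.aa) := fun s => by
    rcases le_total 0 s with h | h
    · exact A.smul' _ s h (A.of_free _ (by simpa using B.free_aa 1))
    · have := A.smul' _ (-s) (neg_nonneg.2 h) (A.of_free _ (B.free_aa (-1)))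
      rwa [neg_smul, neg_smul, one_smul, C.W.q_neg, smul_neg, neg_neg] at this
  obtain ⟨μ, w, μ0, w1, w2⟩ := A.add' _ _ a1 (a2 (-((r * m : ℕ) * (la + t * (C.h o / M.a o)))))
  obtain ⟨ν, rfl⟩ := Nat.exists_eq_succ_of_ne_zero μ0.ne'
  have ew : w + ν • c' + c' = (ν.succ * r) • c := C.W.q_inj (by
    rw [C.W.q_add, C.W.q_add, C.W.q_nsmul, C.W.q_nsmul, w2, e, e', pt_eq, map_sub, map_smul, K.aa,
      map_add, map_neg, map_nsmul, map_nsmul]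
    funext i
    simp only [Pi.smul_apply, Pi.add_apply, Pi.sub_apply, Pi.neg_apply]
    simp only [nsmul_eq_mul, smul_eq_mul]
    push_cast
    ring)
  refine ⟨hN.1, fun y hy y' hy' => ?_⟩
  obtain ⟨σ, σ1, rfl⟩ := (hS' y).1 hy.1
  obtain ⟨σ', σ2, rfl⟩ := (hS' y').1 hy'
  have σ3 := gen_liftV C.ok B hP hc' hT' σ1 hy.2.1 hV fun s hs => hy.2.2 _ ((hS' _).2 ⟨s, hs, rfl⟩)
  obtain ⟨Tw, hw⟩ := w1
  obtain ⟨τ, τ1, τ2⟩ := hw.2 _ hV
  have m1 : ∀ u ∈ T', τ * σ ^ ν * u ∈ C.W.H ((ν.succ * r) • c) := fun u hu V a =>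
    ew ▸ B.oc_mul V _ _ _ _ (B.oc_mul V _ _ _ _ (hw.1 τ τ1 V a)
      (B.oc_pow V _ _ ν (hT'.1 σ σ1 V a))) (hT'.1 u hu V a)
  have m2 := B.gen_mul _ _ _ _ _ τ2 (B.gen_pow _ _ _ ν σ3)
  have := cn_ratio C.ok B hP hc hT hS h1 hN _ (m1 σ σ1) (m1 σ' σ2) (ew ▸ B.gen_mul _ _ _ _ _ m2 σ3)
  obtain ⟨b, hb⟩ := C.ok.cov _ hV
  rw [mul_div_mul_left _ _ (left_ne_zero_of_mul (m2 b hb).1), (pl_div
    (sec_mem B hP hc' (hT'.1 σ' σ2)) (sec_mem B hP hc' (hT'.1 σ σ1)) hy.2.1).2] at this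
  exact this.not

theorem inul_of (hE : EOut) (hK : SKa) : INul := by
  classical
  intro f la b β Q M C o X Y h _ hY Γ hΓ hN
  have K := hK 3 f M C h.ok
  have hc := co_zero h.alive hY.c1 (pt_o h.ok h.zero _)
  refine ⟨null_of hE K hY.inn hY.m hY.c1 hY.c0 hc (co_zero h.alive hY.c0 (pt_o h.ok h.zero _))
    hY.T1 hY.T0 (fun _ => mem_image) (fun _ => mem_image) hΓ.bas hN, fun j =>
    null_of hE K hY.inn hY.m hY.c1 (hY.cj j.1) hc (co_zero h.alive (hY.cj j.1) ?_) hY.T1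
      (hY.Tj j.1) (fun _ => mem_image) (fun _ => mem_image) hΓ.bas hN⟩
  simp [pt_o h.ok h.zero, M.e_apply, j.2.1.symm]

end

end Pool.Agent.MP_ee8c61_ag.N3.M3I44
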