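import Pool.Agent.MP_ee8c61_ag.N3Z.IZ
import Pool.Agent.MP_ee8c61_ag.N3.TrRef
import Pool.Agent.MP_ee8c61_ag.N3K.RReal
import Pool.Agent.MP_ee8c61_ag.N3K.RSep
import Pool.Agent.MP_ee8c61_ag.N3K.RRf

/-!
Every curve on the surface is a double curve of a higher model; signs.
-/

namespace Pool.Agent.MP_ee8c61_ag.N3.M3I44

open Pool.Agent.MP_ee8c61_ag.M3

set_option linter.unusedSectionVars false

variable [Base]

open M3 M3E M3K M3RESID Finset

noncomputable section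

/-- A refinement of corank one of a divisor with a transcendental residue is a double curve of a
higher model. -/
theorem real_cv (E : EOut) (hU : SUp) {f : Po 3} {W : Mod 3} (hf : W.OK f) {o : W.J} {V : Vl 3}
    (hV : Ov V) (hle : V ≤ (W.v o).O) {τ y : KK 3} (hτ : Tc V τ) (y1 : Un (W.v o).O y)
    (y2 : ¬Un V y) :
    ∃ (W' : Mod 3) (D : Dom W' W), W'.OK f ∧ ∃ i, W'.IsCv (D.e o) i V := by
  classical
  have B := E.bas 3 f W hf
  have uτ : Un V τ := by simpa using hτ 0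
  obtain ⟨p, q, hq, e⟩ := RReal.frac τ
  obtain ⟨p', q', hq', e1⟩ := RReal.frac y
  have hp : ip 3 p ≠ 0 := e ▸ mul_ne_zero hq uτ.1
  have hp' : ip 3 p' ≠ 0 := e1 ▸ mul_ne_zero hq' y1.1
  have hf0 : ip 3 f ≠ 0 := ((B.gen_v o _ _).1 (B.gen_f _)).1
  obtain ⟨r, hr⟩ := B.f_pow fun j =>
    -max ((W.v j).v (ip 3 p)) (max ((W.v j).v (ip 3 p')) ((W.v j).v (ip 3 q')))
  have h1 := ((hr r le_rfl).2 o).resolve_left (pow_ne_zero r hf0)
  have h0 : ∀ x : Po 3, ip 3 x ∈ W.H 0 := fun x V' hV' b _ => by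
    rw [B.mon_zero, mul_one]; exact hV' x
  have h2 : ip 3 f ^ r ∈ W.H 0 := map_pow (ip 3) f r ▸ h0 _
  obtain ⟨W', hW', ⟨D⟩, hT⟩ := E.b1 3 f W hf (Fin 3)
    (fun l => {ip 3 (![p, p', q'] l), ip 3 (![q, p', q'] l), ip 3 f ^ r})
    (fun _ => ⟨0, fun g hg => by
      simp only [mem_insert, mem_singleton] at hg
      rcases hg with rfl | rfl | rfl
      exacts [h0 _, h0 _, h2]⟩) fun _ => ⟨r, by simp⟩
  have B' := E.bas 3 f W' hW'
  have nb := E.nb 3 f W' hW'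
  choose c hc using hT
  have hle' : V ≤ (W'.v (D.e o)).O := D.v o ▸ hle
  have gn : ∀ l, W'.Gen V (c l) (ip 3 (![p, p', q'] l)) ∨
      W'.Gen V (c l) (ip 3 (![q, p', q'] l)) := fun l => by
    obtain ⟨g, g1, g2⟩ := (hc l).2 V hV
    simp only [mem_insert, mem_singleton] at g1
    rcases g1 with rfl | rfl | rfl
    · exact .inl g2
    · exact .inr g2
    have n0 : ip 3 (![p, p', q'] l) ≠ 0 := by fin_cases l <;> assumption
    have a3 := hle ((B'.oc_div V _ _ _ hV g2).1 ((hc l).1 _ (mem_insert_self _ _) V hV))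
    have a4 := Or.resolve_left a3 (div_ne_zero n0 (pow_ne_zero r hf0))
    rw [DV.div _ n0 (pow_ne_zero r hf0)] at a4
    have a5 : (W.v o).v (ip 3 (![p, p', q'] l)) ≤
        max ((W.v o).v (ip 3 p)) (max ((W.v o).v (ip 3 p')) ((W.v o).v (ip 3 q'))) := by
      fin_cases l <;> simp
    omega
  obtain ⟨b, hb⟩ := hW'.cov V hV
  have lc : Lc (W'.S.A b) V τ := by
    have a1 := (nb.H (c 0) _).1 ((hc 0).1 (ip 3 p) (by simp)) b
    have a2 := (nb.H (c 0) _).1 ((hc 0).1 (ip 3 q) (by simp)) b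
    have e' : ip 3 q * W'.mon b (c 0) * τ = ip 3 p * W'.mon b (c 0) := by rw [← e]; ring
    rcases gn 0 with g | g
    · exact ⟨_, a2, (e' ▸ g b hb : Un V (ip 3 q * W'.mon b (c 0) * τ)).cancel uτ, e' ▸ a1⟩
    · exact ⟨_, a2, g b hb, e' ▸ a1⟩
  obtain ⟨i, i1, i2⟩ : ∃ i, W'.Thru V i ∧ i ≠ D.e o := by
    by_contra! hn
    have g1 : W'.Gen V (c 1) (ip 3 p') := (gn 1).elim id id
    have g2 : W'.Gen V (c 2) (ip 3 q') := (gn 2).elim id id
    have t := B'.thru_le V _ hV hle'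
    have v1 := (RSep.val hW' B' nb ((hc 1).1 _ (by simp)) hV t g1).2
    have v2 := (RSep.val hW' B' nb ((hc 2).1 _ (by simp)) hV t g2).2
    rw [D.v] at v1 v2
    rw [← e1, DV.mul _ _ _ hq' y1.1, ((DV.un_O _).1 y1).2] at v1
    have g3 := B'.gen_congr V _ (c 2) _ (fun j hj => by rw [hn j hj]; omega) g1
    have := (g3 b hb).div (g2 b hb)
    rw [mul_div_mul_right _ _ (W'.mon_ne b _), ← e1, mul_div_cancel_left₀ _ hq'] at this
    exact y2 this
  exact ⟨W', D, hW', i, hU f W' hW' _ i V b τ i2 hb hle' i1 lc hτ⟩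

/-- Every curve on the surface of a divisor is a double curve of a higher model. -/
theorem real_lv (E : EOut) (hU : SUp) {f : Po 3} {W : Mod 3} (hf : W.OK f) {o : W.J} {k : Type}
    [Field k] [Algebra ℂ k] {P : Pl (KK 3) k} {Γ : DV k} (L : Lv W o P Γ) (h1 : ∃ π, Γ.v π = 1)
    (h2 : ∃ g, NC Γ g) :
    ∃ (W' : Mod 3) (D : Dom W' W), W'.OK f ∧ ∃ i, M3Z.Fl f W' P Γ.pl (D.e o) i ∧
      (∀ l, W'.tr P Γ l = if l = i then 1 else 0) ∧
      ∀ d : W.J → ℚ, d o = 0 → ∑ l, d l * W.tr P Γ l = D.pb d i := by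
  classical
  obtain ⟨t, ht⟩ := h1
  obtain ⟨g, hg⟩ := h2
  obtain ⟨y, y1, rfl⟩ := P.surj t
  obtain ⟨τ, τ1, rfl⟩ := P.surj g
  have y0 : P.π y ≠ 0 := fun e => by simp [e, Γ.zero] at ht
  obtain ⟨W', D, hW', i, hi⟩ := real_cv E hU hf L.ov L.le ((nc_iff τ1).1 hg)
    (L.eq ▸ (pi_ne_iff y1).1 y0) fun e => by simp [(un_lift.1 e).2.2] at ht
  have B' := E.bas 3 f W' hW'
  have L' := L.up D hW' B'.toBas1
  have hF : M3Z.Fl f W' P Γ.pl (D.e o) i :=
    ⟨hW', B', E.der _ f _ hW', E.cv _ f _ hW', rowUnr, L'.eq, ⟨_, ht⟩, hi⟩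
  have tr : ∀ l, W'.tr P Γ l = if l = i then 1 else 0 := fun l => by
    split_ifs with e
    · obtain ⟨b, hb⟩ := L'.cov
      rw [e, L'.tr_eq hb]
      exact hF.v_i hb
    by_cases e' : l = D.e o
    · rw [e', L'.tr_o]
    exact (L'.tr_zero_iff e').2 fun h => (hF.cv.thru _ _ _ l hi h).elim e' e
  refine ⟨W', D, hW', i, hF, tr, fun d hd => ?_⟩
  rw [← tr_pb D L L' hd]
  simp [tr]

variable {f : Po 3} {la : ℚ} {M : Mod 3} {o : M.J}

theorem dl_eq {C : Ch f M} (K : Ka C) (la : ℚ) (i : C.W.J) :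
    dl C i = C.W.ex la i - C.P (M.ex la) i := by
  have e : M.ex la = M.nu - la • M.q M.aa := funext fun l => by simp [Mod.nu, Mod.ex, Mod.aa]
  rw [e, map_sub, map_smul, K.aa]
  simp [dl, Mod.nu, Mod.ex, Mod.aa]

/-- A divisor with coefficient zero at `o` in terms of the other alive divisors. -/
theorem sum_nb {C : Ch f M} (K : Ka C) {d : M.J → ℚ} (hd : d o = 0) :
    C.P d = ∑ j : C.Nb o, d j.1 • C.P (M.q (M.e j.1)) := by
  classical
  rw [LinearMap.pi_apply_eq_sum_univ]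
  have e : ∀ k, (fun l => if k = l then 1 else 0) = M.q (M.e k) := fun k => funext fun l => by
    simp [Mod.e_apply, eq_comm]
  simp only [e]
  rw [← sum_subset (filter_subset (fun j => j ≠ o ∧ C.Alive j) univ) fun k _ hk => ?_]
  · exact sum_subtype _ (by simp) _
  by_cases e1 : k = o
  · rw [e1, hd, zero_smul]
  · rw [K.dead k fun h => hk (mem_filter.2 ⟨mem_univ _, e1, h⟩), smul_zero]

/-- The data of a curve are read off on a higher model. -/
theorem real_sd (E : EOut) (hA : SKa) (hR : SRf) (hU : SUp) (hVol : IVol) {b : Polynomial ℂ}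
    {β : Fin 3 → H59.PX 3 (KK 3)} {Q : H59.PX 3 (KK 3)} {C : Ch f M} {X : Ch.AV (M := M) o}
    {Y : C.AS o} (h : Sit f la b β Q M C o) (hX : X.OK f la β) (hY : Y.OK la)
    {Γ : DV (M.v o).kf} (hΓ : M3.Cv (C.sd la b o X Y).x Γ) :
    ∃ (W' : Mod 3) (D : Dom W' C.W) (h' : RfOK C D) (i : W'.J), Rf C D h' ∧
      M3Z.Fl f W' (M.v o).pl Γ.pl (D.e (C.D.e o)) i ∧
      (∀ j : C.Nb o, (C.sd la b o X Y).β j Γ = (refine C D h').P (M.q (M.e j.1)) i) ∧
      (C.sd la b o X Y).α Γ = (refine C D h').P (M.ex la) i ∧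
      (C.sd la b o X Y).ex Γ = W'.ex la i ∧
      dl (refine C D h') i = (C.sd la b o X Y).ex Γ - (C.sd la b o X Y).α Γ := by
  classical
  have K := hA 3 f M C h.ok
  have L : Lv C.W (C.D.e o) (M.v o).pl Γ :=
    lv_of C.ok (E.bas 3 f _ C.ok).toBas1 (C.D.v o).symm hΓ.bas
  obtain ⟨W', D, hW', i, hF, -, hs⟩ := real_lv E hU C.ok L hΓ.sur hΓ.nc
  obtain ⟨h', R⟩ := hR 3 f M C h.ok W' D hW'
  have hβ : ∀ j : C.Nb o, (C.sd la b o X Y).β j Γ = (refine C D h').P (M.q (M.e j.1)) i :=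
    fun j => hs _ (by rw [h.alive]; simp [Mod.e_apply, j.2.1.symm])
  have hα : (C.sd la b o X Y).α Γ = (refine C D h').P (M.ex la) i := by
    show _ = pbL D (C.P (M.ex la)) i
    rw [sum_nb K h.zero, map_sum, Finset.sum_apply]
    refine sum_congr rfl fun (j : C.Nb o) _ => ?_
    rw [map_smul]
    exact congrArg (M.ex la j.1 * ·) (hβ j)
  have h3 : Exp (dvf f la) (M.v o).pl.o 0 := by
    have := exp_v h.ok la o
    rwa [h.zero, Rat.cast_zero] at this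
  have he := hF.exp_eq h3 hX.rd ((hVol _ _ _ _ _ _ _ _ _ _ h hX hY).exp Γ hΓ)
  refine ⟨W', D, h', i, R, hF, hβ, hα, he, ?_⟩
  rw [he, hα]
  exact dl_eq (hA 3 f M (refine C D h') h.ok) la i

theorem isgn_of (E : EOut) (hA : SKa) (hB : SKb) (hR : SRf) (hU : SUp) (hVol : IVol) : ISgn := by
  intro f la b β Q M C o X Y h hX hY Γ hΓ
  obtain ⟨W', D, h', i, R, hF, hβ, -, -, hd⟩ := real_sd E hA hR hU hVol h hX hY hΓ
  have B' := hB 3 f M (refine C D h') h.ok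
  refine ⟨fun j => le_of_le_of_eq ?_ (hβ j).symm, sub_nonneg.1 (hd ▸ B'.dl0 i), fun e => ?_⟩
  · refine (hA 3 f M (refine C D h') h.ok).mono _ (fun l => ?_) i
    show (0 : ℚ) ≤ (M.e j.1 l : ℤ)
    rw [Mod.e_apply]
    split_ifs <;> simp
  · obtain ⟨j, j1, j2, -, j3⟩ := B'.pltP o i hF.isc.1 (by rw [hd, e, sub_self])
    exact ⟨⟨j, j1, (R.alive j).1 j2⟩, j3.trans_eq (hβ ⟨j, j1, (R.alive j).1 j2⟩).symm⟩

theorem rowSgn (E : EOut) (hVol : IVol) : ISgn :=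
  isgn_of E (rowKa E (rowNg0 E)) (rowKb E (rowKa E (rowNg0 E)))
    (rowRf E (rowTh E) (rowKa E (rowNg0 E))) (rowUp E rowTr rowTc) hVol

end

end Pool.Agent.MP_ee8c61_ag.N3.M3I44
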