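import Pool.Agent.MP_ee8c61_ag.N3I44.Sgn
import Pool.Agent.MP_ee8c61_ag.N3I44.Rows
import Pool.Agent.MP_ee8c61_ag.N3.FKit2
import Pool.Agent.MP_ee8c61_ag.N3K.Out
import Pool.Agent.MP_ee8c61_ag.N3RESID.U3

/-!
The curves on the surface that are not contracted.
-/

namespace Pool.Agent.MP_ee8c61_ag.N3.M3I44

open Pool.Agent.MP_ee8c61_ag.M3

set_option linter.unusedSectionVars false

variable [Base]

open M3 M3E M3K M3RESID Finset

theorem ikvl_of (E : EOut) (hK : KOut) (hVol : IVol) : IKvl := by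
  classical
  intro f la b β Q M C o X Y h hX hY Γ hΓ hN
  have K := hK.ka 3 f M C h.ok
  have B := E.bas 3 f _ C.ok
  have G := hK.ng0 3 f _ C.ok
  have L : Lv C.W (C.D.e o) (M.v o).pl Γ := lv_of C.ok B.toBas1 (C.D.v o).symm hΓ.bas
  have hc := co_zero h.alive hY.c1 (pt_o h.ok h.zero _)
  obtain ⟨n, r, x, F, ρ, n0, r0, e1, e2, e3⟩ := rel K (inn_mem hY.inn) hY.m hY.c1
  have hP : Pz C x F := ⟨e2, by
    rw [e1, ← Nat.cast_smul_eq_nsmul ℚ]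
    exact inn_smul hY.inn (Nat.cast_pos.2 r0)⟩
  have n1 : Nn C.W (lift (M.v o).pl Γ) Y.c1 := by
    by_cases hx : ∃ l, NC Γ ((M.v o).pl.π (xx 3 l))
    · obtain ⟨l, hl⟩ := hx
      obtain ⟨s, s1, s2⟩ := hY.T1.2 _ L.ov
      obtain ⟨a, ha⟩ := L.cov
      refine ⟨s, hY.T1.1 s s1, xx 3 l * s, fun V hV a' ha' => ?_, s2, ?_⟩
      · rw [mul_assoc]
        exact mul_mem (hV (xp 3 l)) (hY.T1.1 s s1 V hV a' ha')
      · rw [mul_div_cancel_right₀ _ (left_ne_zero_of_mul (s2 a ha).1)]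
        exact (L.nc_x l).1 hl
    · by_contra hn
      exact hN ⟨fun l hl => hx ⟨l, hl⟩, fun s hs s' hs' hl => hn (L.nn_of hY.T1 hc hs hs' hl)⟩
  have n2 : Nn C.W (lift (M.v o).pl Γ) F := by
    obtain ⟨ν, rfl⟩ := Nat.exists_eq_succ_of_ne_zero n0.ne'
    have := nn_succ E hK.ng0 C.ok L.ov
      (B.free_add _ _ (B.free_nsmul _ ν ⟨_, hY.T1⟩) (B.free_aa (-ρ))) n1
    rwa [← add_assoc, ← succ_nsmul', e3, neg_smul, add_neg_cancel_right] at this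
  obtain ⟨W', D, h', i, R, hF, hβ, hα, he, hd⟩ := real_sd E hK.ka hK.rf hK.up hVol h hX hY hΓ
  have K' := hK.ka 3 f M (refine C D h') h.ok
  have al := (R.alive o).2 h.alive
  have n3 : Nn W' (lift (M.v o).pl Γ) ((1 : ℕ) • D.pb F) := by
    rw [one_smul]
    exact (R.nn F _ L.ov).2 n2
  rcases hK.kvl f M (refine C D h') h.ok o i _ x _ 1 al (R.pz x F hP) hF.isc n3 with
    ⟨a1, j, a2, a3, a4⟩ | ⟨e, a1, a2, a3, a4⟩
  · refine .inl ⟨⟨j, a3.1, (R.alive j).1 a2⟩, sub_eq_zero.1 (hd.symm.trans a1),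
      (hβ _).trans ((a4 j a3.1).trans (if_pos rfl)), fun (k : C.Nb o) hk =>
        (hβ k).trans ((a4 k.1 k.2.1).trans (if_neg fun e => hk (Subtype.ext e)))⟩
  have b0 : ∀ j, (C.sd la b o X Y).β j Γ = 0 := fun (j : C.Nb o) => (hβ j).trans (a3 j.1 j.2.1)
  have b1 : (C.sd la b o X Y).ex Γ = 1 / e := by
    rw [← a2, hd, show (C.sd la b o X Y).α Γ = 0 from sum_eq_zero fun j _ => by
      rw [b0, mul_zero], sub_zero]
  refine .inr ⟨b0, ?_⟩
  by_cases e4 : e = 1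
  · obtain ⟨O, Z, hR⟩ := a4 e4
    obtain ⟨p, hp⟩ := hΓ.sur
    have h0 : W'.ex la (D.e (C.D.e o)) = 0 := by
      have h1 := dl_eq K' la ((refine C D h').D.e o)
      rw [((hK.kb 3 f M _ h.ok).alive o).1 al, al, h.zero, sub_zero] at h1
      exact h1.symm
    exact .inr ⟨by rw [b1, e4]; simp,
      (exp_good_reg hF.ok hF.po h0 h.hyp.bs hX.rd hX.rv hp hR).2⟩
  · exact .inl ⟨e, by omega, b1⟩

end Pool.Agent.MP_ee8c61_ag.N3.M3I44
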